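import Pool.Agent.N431.HN.Uni

/-!
# Groups of locally polynomial growth in the holonomy of a closed affine manifold

A closed affine manifold with non-zero Euler characteristic has no finite covering with a vector
field without zeros. We prove: the holonomy of every closed affine manifold with this property has
a core, a subgroup `G` of finite index together with a `G`-invariant affine subspace `H` of positive
dimension which meets the developing image, such that for all subgroups `K` of finite index of `G`
the affine manifold `K \ dev⁻¹(H)` has no tangent field without zeros, and such that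

* a subgroup `N` of `G`, all of whose finitely generated subgroups act on `H` through virtually
  nilpotent groups (by Gromov: through groups of polynomial growth), and which is commensurated by
  `K`, acts on `H` by affine maps which are unipotent up to powers;
* if `N` is normalised by `K` and its finitely generated subgroups act through nilpotent groups then
  its elements are unipotent. So the locally nilpotent radical (Hirsch, Plotkin) of the holonomy
  group of `K` on `H` consists of unipotent elements;
* for arbitrary commensurated subgroups `N`: if at one point of `H` all elements of `N` are unipotent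
  up to powers then this holds at all points.
-/

set_option autoImplicit false

open Set Filter Topology

namespace Pool.Agent.Results.MP_1fa9a4_gt.LocallyNilpotentHolonomy

/-- A closed affine manifold `Γ \ X` modelled on the vector space `E`: the group `Γ` acts on the
Hausdorff space `X` properly discontinuously and with compact quotient, and the developing map
`dev` is a local homeomorphism to `E` that is equivariant with respect to the affine holonomy
`hol`. -/
structure ClosedAffine (X Γ E : Type) [TopologicalSpace X] [Group Γ] [MulAction Γ X]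
    [NormedAddCommGroup E] [NormedSpace ℝ E] (dev : X → E) (hol : Γ →* (E ≃ᵃ[ℝ] E)) : Prop where
  /-- the developing map is a local homeomorphism -/
  loc : IsLocalHomeomorph dev
  /-- the group acts by homeomorphisms -/
  cont : ∀ γ : Γ, Continuous fun x : X => γ • x
  /-- the developing map is equivariant -/
  equi : ∀ (γ : Γ) (x : X), dev (γ • x) = hol γ (dev x)
  /-- the action is properly discontinuous -/
  pd : ∀ K : Set X, IsCompact K → {γ : Γ | ∃ x ∈ K, γ • x ∈ K}.Finite
  /-- the quotient is compact -/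
  cc : ∃ K : Set X, IsCompact K ∧ ∀ x : X, ∃ γ : Γ, ∃ k ∈ K, γ • k = x

variable {X Γ E : Type} [TopologicalSpace X] [Group Γ] [MulAction Γ X] [NormedAddCommGroup E]
  [NormedSpace ℝ E]

/-- The affine action of the group on the model space. -/
def act (hol : Γ →* (E ≃ᵃ[ℝ] E)) (γ : Γ) (q : E) : E := hol γ q

/-- The linear holonomy. -/
def lin (hol : Γ →* (E ≃ᵃ[ℝ] E)) (γ : Γ) : E →ₗ[ℝ] E := (hol γ).linear

section act

variable (φ : Γ → E → E)

/-- The set `S` is invariant under `K`. -/
def Invariant (K : Subgroup Γ) (S : Set E) : Prop := ∀ γ ∈ K, ∀ q ∈ S, φ γ q ∈ S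

/-- No proper star-shaped subset of `H` is invariant under `K`. -/
def NoStar (K : Subgroup Γ) (H : Set E) : Prop :=
  ∀ (S : Set E) (p : E), p ∈ S → S ⊆ H → StarConvex ℝ p S → Invariant φ K S → S = H

/-- The transformations of `H` given by the elements of `N` form a group which is normalised by
the one given by `K`. -/
def Normalises (K N : Subgroup Γ) (H : Set E) : Prop :=
  ∀ γ ∈ K, ∀ a ∈ N, ∃ b ∈ N, ∀ q ∈ H, φ (γ * a * γ⁻¹) q = φ b q

/-- Up to powers, the conjugates by elements of `K` of the elements of `N` act on `H` as elements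
of `N`. This is the case if `K` commensurates `N`. -/
def AlmostNormalises (K N : Subgroup Γ) (H : Set E) : Prop :=
  ∀ γ ∈ K, ∀ a ∈ N, ∃ n : ℕ, n ≠ 0 ∧ ∃ b ∈ N, ∀ q ∈ H, φ (γ * a ^ n * γ⁻¹) q = φ b q

/-- The group `F` acts on `H` through a nilpotent group: some term of the lower central series of
`F` acts trivially. -/
def NilpotentOn (F : Subgroup Γ) (H : Set E) : Prop :=
  ∃ n : ℕ, ∀ a ∈ F.lowerCentralSeries n, ∀ q ∈ H, φ a q = q

/-- The finitely generated subgroups of `N` act on `H` through nilpotent groups. -/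
def LocallyNilpotentOn (N : Subgroup Γ) (H : Set E) : Prop :=
  ∀ F ≤ N, F.FG → NilpotentOn φ F H

/-- The finitely generated subgroups of `N` act on `H` through virtually nilpotent groups. -/
def LocallyVirtuallyNilpotentOn (N : Subgroup Γ) (H : Set E) : Prop :=
  ∀ F ≤ N, F.FG → ∃ F₀ ≤ F, F₀.relIndex F ≠ 0 ∧ NilpotentOn φ F₀ H

end act

section lin

variable (φ : Γ → E → E) (l : Γ → E →ₗ[ℝ] E)

/-- The affine transformation given by `a` is unipotent at the point `q`. -/
def UnipotentAt (a : Γ) (q : E) : Prop :=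
  ∃ k : ℕ, ((l a - LinearMap.id : Module.End ℝ E) ^ k) (φ a q - q) = 0

/-- The affine transformation of `H` given by `a` is unipotent. -/
def Unipotent (a : Γ) (H : Set E) : Prop :=
  ∃ k : ℕ, ∀ q ∈ H, ((l a - LinearMap.id : Module.End ℝ E) ^ k) (φ a q - q) = 0

/-- The affine manifold `K \ dev⁻¹(H)`, where `H` is an affine subspace with the direction `V`,
has a continuous vector field without zeros. For `H = E` this is a vector field without zeros on
the covering `K \ X` of `Γ \ X`. -/
def HasField (dev : X → E) (K : Subgroup Γ) (H : Set E) (V : Submodule ℝ E) : Prop :=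
  ∃ Z : X → E, ContinuousOn Z {x | dev x ∈ H} ∧ (∀ x, dev x ∈ H → Z x ∈ V ∧ Z x ≠ 0) ∧
    ∀ γ ∈ K, ∀ x : X, dev x ∈ H → Z (γ • x) = l γ (Z x)

/-- Properties of the subgroups `N` of `G` which are normalised or commensurated by `K`. -/
structure NilpotentLaws (K G : Subgroup Γ) (H : Set E) : Prop where
  /-- locally virtually nilpotent commensurated subgroups are unipotent up to powers -/
  commensurated : ∀ N ≤ G, AlmostNormalises φ K N H → LocallyVirtuallyNilpotentOn φ N H →
    ∀ a ∈ N, ∃ n : ℕ, n ≠ 0 ∧ Unipotent φ l (a ^ n) H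
  /-- locally nilpotent normal subgroups are unipotent -/
  normal : ∀ N ≤ G, Normalises φ K N H → LocallyNilpotentOn φ N H → ∀ a ∈ N, Unipotent φ l a H
  /-- one point suffices: commensurated subgroups -/
  commensurated_point : ∀ N ≤ G, AlmostNormalises φ K N H →
    (∃ q ∈ H, ∀ a ∈ N, ∃ n : ℕ, n ≠ 0 ∧ UnipotentAt φ l (a ^ n) q) →
    ∀ a ∈ N, ∃ n : ℕ, n ≠ 0 ∧ Unipotent φ l (a ^ n) H
  /-- one point suffices: normal subgroups -/
  normal_point : ∀ N ≤ G, Normalises φ K N H → (∃ q ∈ H, ∀ a ∈ N, UnipotentAt φ l a q) →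
    ∀ a ∈ N, Unipotent φ l a H

/-- The properties of the core, for the subgroup `K` of finite index. -/
structure CoreFor (dev : X → E) (K G : Subgroup Γ) (H : Set E) (V : Submodule ℝ E) : Prop where
  /-- the covering `K \ dev⁻¹(H)` has no field without zeros -/
  no_field : ¬ HasField l dev K H V
  no_star : NoStar φ K H
  laws : NilpotentLaws φ l K G H

end lin

/-- **Theorem.** Let `Γ \ X` be a closed affine manifold of positive dimension, with `X` connected,
such that no finite covering of it has a vector field without zeros (this is the case if its Euler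
characteristic is not zero). Then there are a subgroup `G` of finite index and a `G`-invariant
affine subspace `H` of positive dimension, which meets the developing image, such that for all
subgroups `K` of finite index of `G` the covering `K \ dev⁻¹(H)` has no field without zeros, and
the locally (virtually) nilpotent subgroups of `G` which are normalised (commensurated) by `K` act
on `H` by affine maps which are unipotent (up to powers). -/
theorem result [T2Space X] [ConnectedSpace X] [FiniteDimensional ℝ E] [Nontrivial E]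
    {dev : X → E} {hol : Γ →* (E ≃ᵃ[ℝ] E)} (D : ClosedAffine X Γ E dev hol)
    (hno : ∀ K : Subgroup Γ, K.FiniteIndex → ¬ HasField (lin hol) dev K univ ⊤) :
    ∃ (G : Subgroup Γ) (H : AffineSubspace ℝ E), G.FiniteIndex ∧ Invariant (act hol) G H ∧
      H.direction ≠ ⊥ ∧ (∃ x, dev x ∈ H) ∧
      ∀ K ≤ G, K.FiniteIndex → CoreFor (act hol) (lin hol) dev K G H H.direction := by
  have D' : Pool.Agent.W689.Ch.AffMfd X Γ E dev hol := ⟨D.loc, D.cont, D.equi, D.pd, D.cc⟩
  obtain ⟨G, H, x₀, m⟩ := Pool.Agent.Y150.Ch.exists_min D' (fun K hK ⟨Z, h1, h2, h3⟩ =>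
    hno K hK ⟨Z, h1, fun x _ => ⟨trivial, (h2 x trivial).2⟩, fun γ hγ x _ => h3 ⟨γ, hγ⟩ x trivial⟩)
  refine ⟨G, H, m.fin, m.inv, m.dir, ⟨x₀, m.mem⟩, ?_⟩
  intro K hK hKf
  have hstar : ∀ (S : Set E) (p : E), p ∈ S → S ⊆ H →
      StarConvex ℝ p S → (∀ γ ∈ K, ∀ q ∈ S, hol γ q ∈ S) → S = H := m.star K hK hKf
  have hKi : ∀ γ ∈ K, ∀ q ∈ H, hol γ q ∈ H := fun γ hγ => m.inv γ (hK hγ)
  have keyP : ∀ N ≤ G, AlmostNormalises (act hol) K N H →
      (∃ q ∈ H, ∀ a ∈ N, q ∈ Pool.Agent.Y150.Ch.Aff hol Pool.Agent.Y150.Ch.Pos H a) →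
      ∀ a ∈ N, ∃ n : ℕ, n ≠ 0 ∧ Unipotent (act hol) (lin hol) (a ^ n) H := by
    intro N hN hnor hpt a ha
    obtain ⟨n, hn, k, h⟩ := Pool.Agent.N431.HN.unip_of_point m.mem hKi hstar
      (fun a ha => m.inv a (hN ha)) Pool.Agent.Y150.Ch.Pos hpt
      (fun γ hγ a ha => hnor γ hγ a ha) a ha
    exact ⟨n, hn, k, h⟩
  have keyN : ∀ N ≤ G, Normalises (act hol) K N H →
      (∃ q ∈ H, ∀ a ∈ N, q ∈ Pool.Agent.Y150.Ch.Aff hol ⊥ H a) →
      ∀ a ∈ N, Unipotent (act hol) (lin hol) a H := by
    intro N hN hnor hpt a ha
    obtain ⟨n, hn, k, h⟩ := Pool.Agent.N431.HN.unip_of_point m.mem hKi hstar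
      (fun a ha => m.inv a (hN ha)) ⊥ hpt (fun γ hγ a ha => by
        obtain ⟨b, hb, hab⟩ := hnor γ hγ a ha
        exact ⟨1, Submonoid.one_mem _, b, hb, by rw [pow_one]; exact hab⟩) a ha
    rw [Submonoid.mem_bot.1 hn, pow_one] at h
    exact ⟨k, h⟩
  refine ⟨fun ⟨Z, h1, h2, h3⟩ => m.fld K hK hKf
    ⟨Z, h1, h2, fun γ x hx => h3 γ.1 γ.2 x hx⟩, hstar, ⟨?_, ?_, ?_, ?_⟩⟩
  · intro N hN hnor hloc
    exact keyP N hN hnor (Pool.Agent.N431.HN.common_vnil m.mem (fun a ha => m.inv a (hN ha)) hloc)
  · intro N hN hnor hloc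
    exact keyN N hN hnor (Pool.Agent.N431.HN.common_nil m.mem (fun a ha => m.inv a (hN ha)) hloc ⊥)
  · rintro N hN hnor ⟨q, hq, hqa⟩
    refine keyP N hN hnor ⟨q, hq, fun a ha => ⟨hq, ?_⟩⟩
    obtain ⟨n, hn, k, hk⟩ := hqa a ha
    exact ⟨n, hn, k, hk⟩
  · rintro N hN hnor ⟨q, hq, hqa⟩
    refine keyN N hN hnor ⟨q, hq, fun a ha => ⟨hq, 1, Submonoid.one_mem _, ?_⟩⟩
    obtain ⟨k, hk⟩ := hqa a ha
    exact ⟨k, by rw [pow_one]; exact hk⟩

end Pool.Agent.Results.MP_1fa9a4_gt.LocallyNilpotentHolonomy
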