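import Pool.Agent.N502.CH.Split
import Pool.Agent.Y150.Ch.Line

/-!
# Normal, commensurated and commuting subgroups of the holonomy of a closed affine manifold

Chern's conjecture says that closed affine manifolds have Euler characteristic zero. A closed
affine manifold with non-zero Euler characteristic has no finite covering with a vector field
without zeros (Poincare and Hopf). Let `Γ \ X` be a closed affine manifold with this property. We
find a subgroup `G` of finite index of `Γ` and a `G`-invariant affine subspace `H` of positive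
dimension which meets the developing image, such that `G \ dev⁻¹(H)` still has no tangent field
without zeros over any finite covering, and such that the following holds for all subgroups `K` of
finite index in `G`.

* (Normal subgroups.) If `N` is a normal subgroup of `K`, then `N` acts trivially on the quotient
  of `H` by a proper `K`-invariant linear subspace, or `N` has no proper invariant affine
  subspaces and all affine maps from `H` to `H` that commute with `N` are unipotent.
* (Commensurated subgroups.) If `N` is commensurated by `K`, then some subgroup of finite index in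
  `N` acts trivially on the quotient of `H` by a proper `K`-invariant linear subspace, or all
  subgroups `L` of finite index in `N` have no proper invariant affine subspaces, and all affine
  maps from `H` to `H` that commute with `L` are unipotent.
* (Products.) If the action of `K` on `H` is generated by two commuting subgroups `A` and `B`, then
  `A` or `B` acts trivially on `H`, or there are `K`-invariant subspaces `W_A` and `W_B` of the
  direction `V` of `H`, of dimension and codimension at least two, with `W_A + W_B = V`, such that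
  `A` acts trivially on `H / W_A` and `B` acts trivially on `H / W_B`. If the dimension of `H` is
  at most five, then the action is the product of an action of `A` and an action of `B`: we have
  `V = W_A ⊕ W_B`, the action of `A` commutes with the translations by vectors in `W_B`, and the
  action of `B` commutes with the translations by vectors in `W_A`.

By the known cases of the conjecture `H` has dimension at least four. Hence `H` is the whole space
if the manifold has dimension four, and the theorem is about the holonomy group itself. For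
instance, if the linear holonomy of a closed affine manifold of dimension four with non-zero Euler
characteristic is strongly irreducible, then its holonomy group is not virtually a product of two
infinite groups, and all affine maps commuting with a non-trivial normal subgroup of a subgroup of
finite index are unipotent.
-/

set_option autoImplicit false

open Set

namespace Pool.Agent.Results.MP_1fa9a4_gt.NormalAndCommutingHolonomy

/-- A closed affine manifold `Γ \ X` modelled on the vector space `E`: the group `Γ` acts on the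
Hausdorff space `X` properly discontinuously and with compact quotient, and the developing map
`dev` is a local homeomorphism to `E` that is equivariant with respect to the affine holonomy
`hol`. -/
structure ClosedAffine (X Γ E : Type) [TopologicalSpace X] [Group Γ] [MulAction Γ X]
    [NormedAddCommGroup E] [NormedSpace ℝ E] (dev : X → E) (hol : Γ →* (E ≃ᵃ[ℝ] E)) : Prop where
  /-- the developing map is a local homeomorphism -/
  loc : IsLocalHomeomorph dev
  /-- the group acts by homeomorphisms -/
  cont : ∀ γ : Γ, Continuous fun x : X => γ • x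
  /-- the developing map is equivariant -/
  equi : ∀ (γ : Γ) (x : X), dev (γ • x) = hol γ (dev x)
  /-- the action is properly discontinuous -/
  pd : ∀ K : Set X, IsCompact K → {γ : Γ | ∃ x ∈ K, γ • x ∈ K}.Finite
  /-- the quotient is compact -/
  cc : ∃ K : Set X, IsCompact K ∧ ∀ x : X, ∃ γ : Γ, ∃ k ∈ K, γ • k = x

variable {X Γ E : Type} [TopologicalSpace X] [Group Γ] [MulAction Γ X] [NormedAddCommGroup E]
  [NormedSpace ℝ E]

/-- The affine action of the group on the model space. -/
def act (hol : Γ →* (E ≃ᵃ[ℝ] E)) (γ : Γ) (q : E) : E := hol γ q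

/-- The linear holonomy. -/
def lin (hol : Γ →* (E ≃ᵃ[ℝ] E)) (γ : Γ) : E →ₗ[ℝ] E := (hol γ).linear

section act

variable (φ : Γ → E → E)

/-- The set `S` is invariant under `K`. -/
def Invariant (K : Subgroup Γ) (S : Set E) : Prop := ∀ γ ∈ K, ∀ q ∈ S, φ γ q ∈ S

/-- The subgroup `N` acts trivially on `H`. -/
def ActsTrivially (N : Subgroup Γ) (H : Set E) : Prop := ∀ a ∈ N, ∀ q ∈ H, φ a q = q

/-- The subgroup `N` acts trivially on the quotient `H / W`: it moves the points of `H` by vectors
in `W`. -/
def TrivialModulo (N : Subgroup Γ) (H : Set E) (W : Submodule ℝ E) : Prop :=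
  ∀ a ∈ N, ∀ q ∈ H, φ a q - q ∈ W

/-- The transformations of `H` given by the elements of `N` form a group which is normalised by
the one given by `K`. -/
def Normalises (K N : Subgroup Γ) (H : Set E) : Prop :=
  ∀ γ ∈ K, ∀ a ∈ N, ∃ b ∈ N, ∀ q ∈ H, φ (γ * a * γ⁻¹) q = φ b q

/-- The elements of `A` commute with those of `B` as transformations of `H`. -/
def Commuting (A B : Subgroup Γ) (H : Set E) : Prop :=
  ∀ a ∈ A, ∀ b ∈ B, ∀ q ∈ H, φ a (φ b q) = φ b (φ a q)

/-- As transformations of `H`, the elements of `K` are products of elements of `A` and `B`. -/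
def Generated (K A B : Subgroup Γ) (H : Set E) : Prop :=
  ∀ γ ∈ K, ∃ a ∈ A, ∃ b ∈ B, ∀ q ∈ H, φ γ q = φ a (φ b q)

/-- There are no proper `N`-invariant affine subspaces of `H`. -/
def NoAffine (N : Subgroup Γ) (H : AffineSubspace ℝ E) : Prop :=
  ∀ H' : AffineSubspace ℝ E, H' ≤ H → (H' : Set E).Nonempty → Invariant φ N H' → H' = H

/-- All affine maps from `H` to `H` which commute with `N` are unipotent. -/
def UnipotentCentralizer (N : Subgroup Γ) (H : Set E) : Prop :=
  ∀ b : E →ᵃ[ℝ] E, (∀ q ∈ H, b q ∈ H) → (∀ a ∈ N, ∀ q ∈ H, b (φ a q) = φ a (b q)) →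
    ∃ n : ℕ, ∀ q ∈ H, ((b.linear - LinearMap.id : Module.End ℝ E) ^ n) (b q - q) = 0

/-- The group `N` has no proper invariant affine subspaces of `H`, and the affine maps commuting
with it are unipotent. -/
def Irreducible (N : Subgroup Γ) (H : AffineSubspace ℝ E) : Prop :=
  NoAffine φ N H ∧ UnipotentCentralizer φ N H

/-- The action of `A` on `H` commutes with the translations by vectors in `W`. -/
def Shifts (A : Subgroup Γ) (H : Set E) (W : Submodule ℝ E) : Prop :=
  ∀ a ∈ A, ∀ q ∈ H, ∀ v ∈ W, φ a (q + v) = φ a q + v

end act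

section lin

variable (φ : Γ → E → E) (l : Γ → E →ₗ[ℝ] E)

/-- The linear subspace `W` is invariant under `K`. -/
def LinInvariant (K : Subgroup Γ) (W : Submodule ℝ E) : Prop := ∀ γ ∈ K, ∀ v ∈ W, l γ v ∈ W

/-- The affine manifold `K \ dev⁻¹(H)`, where `H` is an affine subspace with the direction `V`,
has a continuous vector field without zeros. For `H = E` this is a vector field without zeros on
the covering `K \ X` of `Γ \ X`. -/
def HasField (dev : X → E) (K : Subgroup Γ) (H : Set E) (V : Submodule ℝ E) : Prop :=
  ∃ Z : X → E, ContinuousOn Z {x | dev x ∈ H} ∧ (∀ x, dev x ∈ H → Z x ∈ V ∧ Z x ≠ 0) ∧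
    ∀ γ ∈ K, ∀ x : X, dev x ∈ H → Z (γ • x) = l γ (Z x)

/-- The subgroup `N` acts trivially on the quotient of `H` by a proper `K`-invariant linear
subspace of its direction. -/
def TrivialOnQuotient (K N : Subgroup Γ) (H : AffineSubspace ℝ E) : Prop :=
  ∃ W < H.direction, LinInvariant l K W ∧ TrivialModulo φ N H W

/-- The subspace `W` of `V` is `K`-invariant and has dimension and codimension at least two. -/
structure Factor (K : Subgroup Γ) (V W : Submodule ℝ E) : Prop where
  /-- the subspace is invariant -/
  inv : LinInvariant l K W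
  /-- its dimension -/
  dim : 2 ≤ Module.finrank ℝ W
  /-- its codimension -/
  codim : Module.finrank ℝ W + 2 ≤ Module.finrank ℝ V

/-- The decomposition of `H` for two commuting subgroups `A` and `B` which generate `K`. -/
structure Splitting (K A B : Subgroup Γ) (H : AffineSubspace ℝ E) (WA WB : Submodule ℝ E) :
    Prop where
  /-- the subspace for `A` -/
  left : Factor l K H.direction WA
  /-- the subspace for `B` -/
  right : Factor l K H.direction WB
  /-- they span the direction of `H` -/
  sum : WA ⊔ WB = H.direction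
  /-- the group `A` acts trivially on `H / WA` -/
  mod_left : TrivialModulo φ A H WA
  /-- the group `B` acts trivially on `H / WB` -/
  mod_right : TrivialModulo φ B H WB
  /-- in dimension at most five the action is a product -/
  product : Module.finrank ℝ H.direction ≤ 5 →
    WA ⊓ WB = ⊥ ∧ Shifts φ A H WB ∧ Shifts φ B H WA

/-- The properties of the action of `K` on the affine subspace `H`. -/
structure Laws (dev : X → E) (K : Subgroup Γ) (H : AffineSubspace ℝ E) : Prop where
  /-- there is no tangent field without zeros -/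
  no_field : ¬ HasField l dev K H H.direction
  /-- the law for normal subgroups -/
  normal : ∀ N ≤ K, Normalises φ K N H → TrivialOnQuotient φ l K N H ∨ Irreducible φ N H
  /-- the law for commensurated subgroups -/
  commensurated : ∀ N ≤ K, K ≤ Subgroup.Commensurable.commensurator N →
    (∃ L ≤ N, L.relIndex N ≠ 0 ∧ TrivialOnQuotient φ l K L H) ∨
      ∀ L ≤ N, L.relIndex N ≠ 0 → Irreducible φ L H
  /-- the law for commuting subgroups -/
  commuting : ∀ A ≤ K, ∀ B ≤ K, Commuting φ A B H → Generated φ K A B H →
    ActsTrivially φ A H ∨ ActsTrivially φ B H ∨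
      ∃ WA WB : Submodule ℝ E, Splitting φ l K A B H WA WB

end lin

/-- **Theorem.** Let `Γ \ X` be a closed affine manifold of positive dimension, with `X` connected,
such that no finite covering of it has a vector field without zeros (this is the case if its Euler
characteristic is not zero). Then there are a subgroup `G` of finite index and a `G`-invariant
affine subspace `H` of positive dimension, which meets the developing image, such that all
subgroups `K` of finite index in `G` satisfy the laws for normal, commensurated and commuting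
subgroups. -/
theorem result [T2Space X] [ConnectedSpace X] [FiniteDimensional ℝ E] [Nontrivial E]
    {dev : X → E} {hol : Γ →* (E ≃ᵃ[ℝ] E)} (D : ClosedAffine X Γ E dev hol)
    (hno : ∀ K : Subgroup Γ, K.FiniteIndex → ¬ HasField (lin hol) dev K univ ⊤) :
    ∃ (G : Subgroup Γ) (H : AffineSubspace ℝ E), G.FiniteIndex ∧ Invariant (act hol) G H ∧
      H.direction ≠ ⊥ ∧ (∃ x, dev x ∈ H) ∧
      ∀ K ≤ G, K.FiniteIndex → Laws (act hol) (lin hol) dev K H := by
  have D' : Pool.Agent.W689.Ch.AffMfd X Γ E dev hol := ⟨D.loc, D.cont, D.equi, D.pd, D.cc⟩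
  obtain ⟨G, H, x₀, m⟩ := Pool.Agent.Y150.Ch.exists_min D' (fun K hK ⟨Z, h1, h2, h3⟩ =>
    hno K hK ⟨Z, h1, fun x _ => ⟨trivial, (h2 x trivial).2⟩, fun γ hγ x _ => h3 ⟨γ, hγ⟩ x trivial⟩)
  refine ⟨G, H, m.fin, m.inv, m.dir, ⟨x₀, m.mem⟩, ?_⟩
  intro K hK hKf
  have hstar : ∀ (S : Set E) (p : E), p ∈ S → S ⊆ H →
      StarConvex ℝ p S → (∀ γ ∈ K, ∀ q ∈ S, hol γ q ∈ S) → S = H := m.star K hK hKf
  have hline : ∀ W W' : Submodule ℝ E, W ≤ W' → W' ≤ H.direction →
      (∀ γ ∈ K, ∀ v ∈ W, (hol γ).linear v ∈ W) → (∀ γ ∈ K, ∀ v ∈ W', (hol γ).linear v ∈ W') →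
      Module.finrank ℝ W' ≠ Module.finrank ℝ W + 1 :=
    fun W W' h1 h2 h3 h4 => Pool.Agent.Y150.Ch.no_line D' m hK hKf h1 h2 h3 h4
  have hinv : ∀ γ ∈ K, ∀ q ∈ H, hol γ q ∈ H := fun γ hγ => m.inv γ (hK hγ)
  have hp : dev x₀ ∈ H := m.mem
  -- the family version of the law for normal subgroups
  have hfam : ∀ (𝓛 : Set (Subgroup Γ)), (∀ L ∈ 𝓛, L ≤ K) → (∀ L ∈ 𝓛, ∀ L' ∈ 𝓛, L ⊓ L' ∈ 𝓛) →
      (∀ γ ∈ K, ∀ L ∈ 𝓛, ∃ L' ∈ 𝓛, ∀ a ∈ L', ∃ b ∈ L, ∀ q ∈ H, hol (γ * a * γ⁻¹) q = hol b q) →
      (∀ L ∈ 𝓛, Pool.Agent.N502.CH.disp hol L H = H.direction) →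
      ∀ N ∈ 𝓛, Irreducible (act hol) N H := by
    intro 𝓛 h1 h2 h3 h4 N hN
    have hstep := Pool.Agent.N502.CH.family_geo hinv hp hstar 𝓛 h1 h2 h3 h4 hN
    refine ⟨?_, ?_⟩
    · rintro H' hH' ⟨q', hq'⟩ hH'N
      exact Pool.Agent.N502.CH.no_affine hinv hp hstep H' hH' hq' hH'N
    · intro b hb hbN
      exact Pool.Agent.N502.CH.unip_cent hinv hp hstep b hb hbN
  have hlt : ∀ L ≤ K, Pool.Agent.N502.CH.disp hol L H ≠ H.direction →
      Pool.Agent.N502.CH.disp hol L H < H.direction := fun L hL h =>
    lt_of_le_of_ne (Pool.Agent.N502.CH.disp_le fun γ hγ => hinv γ (hL hγ)) h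
  refine ⟨fun ⟨Z, h1, h2, h3⟩ => m.fld K hK hKf
    ⟨Z, h1, h2, fun γ x hx => h3 γ.1 γ.2 x hx⟩, ?_, ?_, ?_⟩
  · intro N hN hnor
    by_cases hd : Pool.Agent.N502.CH.disp hol N H = H.direction
    · right
      refine hfam {N} ?_ ?_ ?_ ?_ N rfl
      · rintro L rfl
        exact hN
      · rintro L rfl L' rfl
        exact inf_idem _
      · rintro γ hγ L rfl
        exact ⟨L, rfl, fun a ha => hnor γ hγ a ha⟩
      · rintro L rfl
        exact hd
    · left
      exact ⟨_, hlt N hN hd, Pool.Agent.N502.CH.disp_inv hinv hnor,
        fun a ha q hq => Pool.Agent.N502.CH.mem_disp hol ha hq⟩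
  · intro N hN hcom
    rcases Pool.Agent.N502.CH.comm_alt (H := H) hinv hN hcom with ⟨L, hLN, hL, hd, hi⟩ | hd
    · left
      exact ⟨L, hLN, hL, _, hlt L (hLN.trans hN) hd, hi,
        fun a ha q hq => Pool.Agent.N502.CH.mem_disp hol ha hq⟩
    · right
      intro L hLN hL
      refine hfam {L | L ≤ N ∧ L.relIndex N ≠ 0} (fun L hL => hL.1.trans hN)
        (fun L hL L' hL' => ⟨inf_le_left.trans hL.1, Subgroup.relIndex_inf_ne_zero hL.2 hL'.2⟩)
        ?_ (fun L hL => hd L hL.1 hL.2) L ⟨hLN, hL⟩
      rintro γ hγ L ⟨hLN, hL⟩
      obtain ⟨L', h1, h2, h3⟩ := Pool.Agent.N502.CH.conj_index hcom hγ hLN hL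
      exact ⟨L', ⟨h1, h2⟩, fun a ha => ⟨_, h3 a ha, fun q _ => rfl⟩⟩
  · intro A hA B hB hAB hgen
    rcases Pool.Agent.N502.CH.splitting hinv hp hstar hline hA hB hAB hgen with
      h | h | ⟨h1, h2, h3, h4, h5, h6⟩
    · exact Or.inl h
    · exact Or.inr (Or.inl h)
    · exact Or.inr (Or.inr ⟨_, _, ⟨h1, h4.1, h4.2⟩, ⟨h2, h5.1, h5.2⟩, h3,
        fun a ha q hq => Pool.Agent.N502.CH.mem_disp hol ha hq,
        fun a ha q hq => Pool.Agent.N502.CH.mem_disp hol ha hq, h6⟩)

end Pool.Agent.Results.MP_1fa9a4_gt.NormalAndCommutingHolonomy
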